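import Pool.Agent.Work.MP_77c57a_nt.B_GAP
import Pool.Agent.Work.MP_77c57a_nt.B_RP
import Pool.Agent.Work.MP_77c57a_nt.B_ROOT35
import Pool.Agent.Work.MP_77c57a_nt.PR
import Pool.Agent.Work.MP_77c57a_nt.B_NR
import Pool.Agent.Work.MP_77c57a_nt.B_SV
import Pool.Agent.Work.MP_77c57a_nt.B_CX
import Pool.Agent.Work.MP_77c57a_nt.B_FIN

/-!
# MP_77c57a_nt: a bound for the number of integer solutions of `x^3 y^2 = z^3 + 2`

For every `ε > 0` the number of integer solutions with `|z| ≤ Z` is at most `C Z^(3/5 + ε)`.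
Ingredients: a gap principle for fixed `y`, cube roots modulo `x^3`, and the large sieve with the
primes `2` modulo `3` in each residue class modulo `x^3`.
-/

set_option autoImplicit false

namespace Pool.Agent.Results.MP_77c57a_nt.SolutionCount

theorem result (ε : ℝ) (hε : 0 < ε) : ∃ C : ℝ, 0 < C ∧ ∀ Z : ℕ, 1 ≤ Z →
    {s : ℤ × ℤ × ℤ | s.1 ^ 3 * s.2.1 ^ 2 = s.2.2 ^ 3 + 2 ∧ |s.2.2| ≤ (Z : ℤ)}.Finite ∧
    (({s : ℤ × ℤ × ℤ | s.1 ^ 3 * s.2.1 ^ 2 = s.2.2 ^ 3 + 2 ∧ |s.2.2| ≤ (Z : ℤ)}.ncard : ℕ) : ℝ) ≤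
      C * (Z : ℝ) ^ ((3 : ℝ) / 5 + ε) :=
  Pool.Mor.p_FIN Pool.Mor.p_GAP
    (Pool.Mor.p_CX (Pool.Mor.p_ROOT35 Pool.Mor.p_RP) (Pool.Mor.p_SV Pool.Mor.p_PR Pool.Mor.p_NR)) ε hε

end Pool.Agent.Results.MP_77c57a_nt.SolutionCount
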